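import Mathlib

/-! Matrix lemmas for LAL. -/

open Complex Matrix
open scoped ComplexConjugate ComplexOrder Matrix

namespace Pool.Agent.Helper13.HS

variable {n : ℕ}

/-- Congruent diagonal matrices are positive semidefinite. -/
theorem psd_diag (P : Matrix (Fin n) (Fin n) ℂ) (m : Fin n → ℝ) (hm : ∀ i, 0 ≤ m i) :
    (P * diagonal (fun i => (m i : ℂ)) * Pᴴ).PosSemidef := by
  refine PosSemidef.mul_mul_conjTranspose_same (PosSemidef.diagonal fun i => ?_) P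
  exact Complex.zero_le_real.2 (hm i)

open scoped MatrixOrder Matrix.Norms.L2Operator in
theorem psd_factor {M : Matrix (Fin n) (Fin n) ℂ} (hM : M.PosSemidef) :
    ∃ B : Matrix (Fin n) (Fin n) ℂ, M = Bᴴ * B := by
  obtain ⟨B, hB⟩ := CStarAlgebra.nonneg_iff_eq_star_mul_self.mp hM.nonneg
  exact ⟨B, hB⟩

/-- The trace of a product of positive semidefinite matrices. -/
theorem tr_mul_nonneg {M N : Matrix (Fin n) (Fin n) ℂ} (hM : M.PosSemidef) (hN : N.PosSemidef) :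
    0 ≤ (Matrix.trace (M * N)).re := by
  obtain ⟨B, rfl⟩ := psd_factor hN
  have h1 : Matrix.trace (M * (Bᴴ * B)) = Matrix.trace (B * M * Bᴴ) := by
    rw [← Matrix.mul_assoc, Matrix.trace_mul_comm, ← Matrix.mul_assoc]
  rw [h1]
  have h2 := (hM.mul_mul_conjTranspose_same B).trace_nonneg
  exact (Complex.nonneg_iff.1 h2).1

/-- Entries of a positive semidefinite matrix are bounded by the diagonal. -/
theorem psd_entry {M : Matrix (Fin n) (Fin n) ℂ} (hM : M.PosSemidef) {c : ℝ}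
    (hc : ∀ i, (M i i).re ≤ c) (i j : Fin n) : ‖M i j‖ ≤ c := by
  obtain ⟨B, rfl⟩ := psd_factor hM
  have hdiag : ∀ i, ((Bᴴ * B) i i).re = ∑ k, ‖B k i‖ ^ 2 := by
    intro i
    rw [Matrix.mul_apply, Complex.re_sum]
    refine Finset.sum_congr rfl fun k _ => ?_
    rw [Matrix.conjTranspose_apply]
    have : star (B k i) * B k i = ((‖B k i‖ ^ 2 : ℝ) : ℂ) := by
      have h := Complex.conj_mul' (B k i)
      rw [show star (B k i) = conj (B k i) from rfl, h]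
      push_cast
      rfl
    rw [this, Complex.ofReal_re]
  have h1 : ‖(Bᴴ * B) i j‖ ≤ ∑ k, ‖B k i‖ * ‖B k j‖ := by
    rw [Matrix.mul_apply]
    refine (norm_sum_le _ _).trans (le_of_eq ?_)
    refine Finset.sum_congr rfl fun k _ => ?_
    rw [Matrix.conjTranspose_apply, norm_mul, norm_star]
  have h2 : ∑ k, ‖B k i‖ * ‖B k j‖ ≤ ∑ k, (‖B k i‖ ^ 2 + ‖B k j‖ ^ 2) / 2 :=
    Finset.sum_le_sum fun k _ => by nlinarith [sq_nonneg (‖B k i‖ - ‖B k j‖)]
  have h3 : ∑ k, (‖B k i‖ ^ 2 + ‖B k j‖ ^ 2) / 2 =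
      ((∑ k, ‖B k i‖ ^ 2) + ∑ k, ‖B k j‖ ^ 2) / 2 := by
    rw [← Finset.sum_div, Finset.sum_add_distrib]
  rw [← hdiag, ← hdiag] at h3
  linarith [hc i, hc j]

/-- A bound for a fourfold sum. -/
theorem sum4 (f : Fin n → Fin n → Fin n → Fin n → ℂ) (b : ℝ) (hf : ∀ i j k l, ‖f i j k l‖ ≤ b) :
    ‖∑ i, ∑ j, ∑ k, ∑ l, f i j k l‖ ≤ (n : ℝ) ^ 4 * b := by
  have h1 : ∀ i j k, ‖∑ l, f i j k l‖ ≤ n * b := fun i j k => by
    refine (norm_sum_le_of_le _ (fun l _ => hf i j k l)).trans (le_of_eq ?_)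
    simp
  have h2 : ∀ i j, ‖∑ k, ∑ l, f i j k l‖ ≤ n * (n * b) := fun i j => by
    refine (norm_sum_le_of_le _ (fun k _ => h1 i j k)).trans (le_of_eq ?_)
    simp
  have h3 : ∀ i, ‖∑ j, ∑ k, ∑ l, f i j k l‖ ≤ n * (n * (n * b)) := fun i => by
    refine (norm_sum_le_of_le _ (fun j _ => h2 i j)).trans (le_of_eq ?_)
    simp
  refine (norm_sum_le_of_le _ (fun i _ => h3 i)).trans (le_of_eq ?_)
  simp
  ring

/-- The case of the normal form. -/
theorem normal_form {H Q P P' : Matrix (Fin n) (Fin n) ℂ} {q : Fin n → ℝ} (hPP : P * P' = 1)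
    (hPP' : P' * P = 1) (hH : H = P * Pᴴ) (hQ : Q = P * diagonal (fun i => (q i : ℂ)) * Pᴴ)
    (hq : ∀ i, 0 < q i) :
    Q⁻¹ = P'ᴴ * diagonal (fun i => (((q i)⁻¹ : ℝ) : ℂ)) * P' ∧ H⁻¹ = P'ᴴ * P' ∧
    Matrix.trace (H * Q⁻¹) = ((∑ i, (q i)⁻¹ : ℝ) : ℂ) ∧
    (∀ a b : ℝ, ((a : ℂ) • Q - (b : ℂ) • H) =
      P * diagonal (fun i => ((a * q i - b : ℝ) : ℂ)) * Pᴴ) ∧
    (∀ a b : ℝ, ((a : ℂ) • H⁻¹ - (b : ℂ) • Q⁻¹) =
      P'ᴴ * diagonal (fun i => ((a - b * (q i)⁻¹ : ℝ) : ℂ)) * P') ∧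
    0 < H.det.re ∧ Q.det.re = H.det.re * ∏ i, q i := by
  have hPPs : Pᴴ * P'ᴴ = 1 := by rw [← conjTranspose_mul, hPP', conjTranspose_one]
  have hPPs' : P'ᴴ * Pᴴ = 1 := by rw [← conjTranspose_mul, hPP, conjTranspose_one]
  have hHi : H⁻¹ = P'ᴴ * P' := by
    apply Matrix.inv_eq_left_inv
    rw [hH]
    calc P'ᴴ * P' * (P * Pᴴ) = P'ᴴ * (P' * P) * Pᴴ := by simp only [Matrix.mul_assoc]
      _ = 1 := by rw [hPP', Matrix.mul_one, hPPs']
  have hdd : diagonal (fun i => (((q i)⁻¹ : ℝ) : ℂ)) * diagonal (fun i => (q i : ℂ)) = 1 := by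
    rw [diagonal_mul_diagonal, ← diagonal_one]
    congr 1
    funext i
    rw [← Complex.ofReal_mul, inv_mul_cancel₀ (hq i).ne', Complex.ofReal_one]
  have hQi : Q⁻¹ = P'ᴴ * diagonal (fun i => (((q i)⁻¹ : ℝ) : ℂ)) * P' := by
    apply Matrix.inv_eq_left_inv
    rw [hQ]
    calc P'ᴴ * diagonal (fun i => (((q i)⁻¹ : ℝ) : ℂ)) * P' *
          (P * diagonal (fun i => (q i : ℂ)) * Pᴴ) =
        P'ᴴ * (diagonal (fun i => (((q i)⁻¹ : ℝ) : ℂ)) * (P' * P) *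
          diagonal (fun i => (q i : ℂ))) * Pᴴ := by simp only [Matrix.mul_assoc]
      _ = 1 := by rw [hPP', Matrix.mul_one, hdd, Matrix.mul_one, hPPs']
  refine ⟨hQi, hHi, ?_, ?_, ?_, ?_⟩
  · rw [hQi, hH]
    calc Matrix.trace (P * Pᴴ * (P'ᴴ * diagonal (fun i => (((q i)⁻¹ : ℝ) : ℂ)) * P')) =
        Matrix.trace (P * ((Pᴴ * P'ᴴ) * diagonal (fun i => (((q i)⁻¹ : ℝ) : ℂ)) * P')) := by
          simp only [Matrix.mul_assoc]
      _ = Matrix.trace (diagonal (fun i => (((q i)⁻¹ : ℝ) : ℂ))) := by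
          rw [hPPs, Matrix.one_mul, Matrix.trace_mul_comm, Matrix.mul_assoc, hPP', Matrix.mul_one]
      _ = _ := by rw [trace_diagonal]; push_cast; rfl
  · intro a b
    have e : diagonal (fun i => ((a * q i - b : ℝ) : ℂ)) =
        (a : ℂ) • diagonal (fun i => (q i : ℂ)) - (b : ℂ) • (1 : Matrix (Fin n) (Fin n) ℂ) := by
      rw [← diagonal_one, ← diagonal_smul, ← diagonal_smul, diagonal_sub]
      congr 1
      funext i
      simp
    rw [e, hQ, hH, Matrix.mul_sub, Matrix.sub_mul]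
    simp
  · intro a b
    have e : diagonal (fun i => ((a - b * (q i)⁻¹ : ℝ) : ℂ)) =
        (a : ℂ) • (1 : Matrix (Fin n) (Fin n) ℂ) -
          (b : ℂ) • diagonal (fun i => (((q i)⁻¹ : ℝ) : ℂ)) := by
      rw [← diagonal_one, ← diagonal_smul, ← diagonal_smul, diagonal_sub]
      congr 1
      funext i
      simp
    rw [e, hQi, hHi, Matrix.mul_sub, Matrix.sub_mul]
    simp
  · have hdet : P.det * Pᴴ.det = ((‖P.det‖ ^ 2 : ℝ) : ℂ) := by
      rw [det_conjTranspose]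
      have := Complex.mul_conj' P.det
      rw [show star P.det = conj P.det from rfl, this]
      push_cast
      rfl
    have hP0 : P.det ≠ 0 := by
      intro h
      have := congrArg Matrix.det hPP
      rw [det_mul, h, zero_mul, det_one] at this
      exact zero_ne_one this
    have hHd : H.det = ((‖P.det‖ ^ 2 : ℝ) : ℂ) := by rw [hH, det_mul, hdet]
    have hQd : Q.det = ((‖P.det‖ ^ 2 * ∏ i, q i : ℝ) : ℂ) := by
      rw [hQ, det_mul, det_mul, det_diagonal, mul_right_comm, hdet]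
      push_cast
      rfl
    rw [hHd, hQd, Complex.ofReal_re, Complex.ofReal_re]
    exact ⟨by positivity, rfl⟩

end Pool.Agent.Helper13.HS
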