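import Pool.Agent.Helper45.HS.GoalsC
import Pool.Agent.Helper27.HS.TRC
import Pool.Agent.Helper13.HS.LALm

/-! HS LAL: linear algebra for the second order estimate. -/

open Complex Matrix
open scoped ComplexConjugate ComplexOrder Matrix

namespace Pool.Agent.Helper13.HS

open Pool.Agent.Helper45.HS Pool.Agent.Helper57.HS Pool.Agent.Helper27.HS

theorem lal : S_LAL := by
  intro n κ hκ
  have hκ0 : 0 ≤ κ := by linarith
  refine ⟨1 + (n : ℝ) ^ 4 * κ ^ 3, by
    have : 0 ≤ (n : ℝ) ^ 4 * κ ^ 3 := by positivity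
    linarith, ?_⟩
  intro H Q hH hQ
  obtain ⟨P, P', q, hPP, hPP', hHe, hQe⟩ := trc_simul H Q hH hQ.isHermitian
  have hq0 : ∀ i, 0 ≤ q i := trc_posSemidef P P' q hPP' (by rw [← hQe]; exact hQ.posSemidef)
  have hq : ∀ i, 0 < q i := by
    intro i
    rcases (hq0 i).eq_or_lt with h | h
    · exfalso
      have h1 : Q.det = 0 := by
        rw [hQe, det_mul, det_mul, det_diagonal, Finset.prod_eq_zero (Finset.mem_univ i)]
        · simp
        · rw [← h]; simp
      have h2 := hQ.det_pos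
      rw [h1] at h2
      exact lt_irrefl _ h2
    · exact h
  obtain ⟨hQi, hHi, htr, hab, hab', hHd, hQd⟩ := normal_form hPP hPP' hHe hQe hq
  have ht : (Matrix.trace (H * Q⁻¹)).re = ∑ i, (q i)⁻¹ := by rw [htr, Complex.ofReal_re]
  rw [ht]
  set t : ℝ := ∑ i, (q i)⁻¹ with htdef
  have hqi : ∀ i, (q i)⁻¹ ≤ t := fun i =>
    Finset.single_le_sum (f := fun i => (q i)⁻¹) (fun j _ => (inv_pos.2 (hq j)).le)
      (Finset.mem_univ i)
  have ht0 : 0 ≤ t := Finset.sum_nonneg fun i _ => (inv_pos.2 (hq i)).le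
  refine ⟨⟨ht0, fun hn => ?_⟩, ?_, ?_, ?_, ?_⟩
  · have : Nonempty (Fin n) := ⟨⟨0, hn⟩⟩
    exact Finset.sum_pos (fun i _ => inv_pos.2 (hq i)) Finset.univ_nonempty
  · have h1 : ((t : ℂ) • Q - H) = P * diagonal (fun i => ((t * q i - 1 : ℝ) : ℂ)) * Pᴴ := by
      rw [← hab t 1]
      simp
    unfold MLe
    rw [h1]
    refine psd_diag P _ fun i => ?_
    have := mul_le_mul_of_nonneg_right (hqi i) (hq i).le
    rw [inv_mul_cancel₀ (hq i).ne'] at this
    linarith
  · intro hH1 hH2 y hy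
    have hpsd : ((t : ℂ) • H⁻¹ - Q⁻¹).PosSemidef := by
      have h1 : ((t : ℂ) • H⁻¹ - Q⁻¹) =
          P'ᴴ * diagonal (fun i => ((t - 1 * (q i)⁻¹ : ℝ) : ℂ)) * P'ᴴᴴ := by
        rw [conjTranspose_conjTranspose, ← hab' t 1]
        simp
      rw [h1]
      refine psd_diag P'ᴴ _ fun i => ?_
      have := hqi i
      linarith
    have hQb : ∀ i j, ‖Q⁻¹ i j‖ ≤ t * κ := by
      refine psd_entry hQ.inv.posSemidef fun i => ?_
      have h1 := (Complex.nonneg_iff.1 (hpsd.diag_nonneg (i := i))).1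
      rw [Matrix.sub_apply, Matrix.smul_apply, smul_eq_mul, Complex.sub_re,
        Complex.re_ofReal_mul] at h1
      have h2 : (H⁻¹ i i).re ≤ κ := (Complex.re_le_norm _).trans (hH2 i i)
      have h3 := mul_le_mul_of_nonneg_left h2 ht0
      linarith
    have htκ : 0 ≤ t * κ := mul_nonneg ht0 hκ0
    refine ⟨fun Y hY => ?_, fun S hS => ?_⟩
    · have e : Matrix.trace (Y * Q⁻¹ * H * Q⁻¹) =
          ∑ i, ∑ l, ∑ k, ∑ j, Y i j * Q⁻¹ j k * H k l * Q⁻¹ l i := by
        rw [Matrix.trace]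
        refine Finset.sum_congr rfl fun i _ => ?_
        rw [Matrix.diag_apply, Matrix.mul_apply]
        refine Finset.sum_congr rfl fun l _ => ?_
        rw [Matrix.mul_apply, Finset.sum_mul]
        refine Finset.sum_congr rfl fun k _ => ?_
        rw [Matrix.mul_apply, Finset.sum_mul, Finset.sum_mul]
      rw [e]
      refine (sum4 (fun i l k j => Y i j * Q⁻¹ j k * H k l * Q⁻¹ l i) (y * (t * κ) * κ * (t * κ))
        fun i l k j => ?_).trans ?_
      · rw [norm_mul, norm_mul, norm_mul]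
        have h1 := hY i j
        have h2 := hQb j k
        have h3 := hH1 k l
        have h4 := hQb l i
        exact mul_le_mul (mul_le_mul (mul_le_mul h1 h2 (norm_nonneg _) hy) h3 (norm_nonneg _)
          (mul_nonneg hy htκ)) h4 (norm_nonneg _) (mul_nonneg (mul_nonneg hy htκ) hκ0)
      · have h5 : (n : ℝ) ^ 4 * (y * (t * κ) * κ * (t * κ)) = ((n : ℝ) ^ 4 * κ ^ 3) * (y * t ^ 2) := by
          ring
        rw [h5]
        have h6 : 0 ≤ y * t ^ 2 := by positivity
        nlinarith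
    · refine (sum4 (fun i j k l => Q⁻¹ j i * Q⁻¹ l k * S i j k l) ((t * κ) * (t * κ) * y)
        fun i j k l => ?_).trans ?_
      · rw [norm_mul, norm_mul]
        exact mul_le_mul (mul_le_mul (hQb j i) (hQb l k) (norm_nonneg _) htκ) (hS i j k l)
          (norm_nonneg _) (mul_nonneg htκ htκ)
      · have h5 : (n : ℝ) ^ 4 * ((t * κ) * (t * κ) * y) = ((n : ℝ) ^ 4 * κ ^ 2) * (y * t ^ 2) := by
          ring
        rw [h5]
        have h6 : 0 ≤ y * t ^ 2 := by positivity
        have h7 : (n : ℝ) ^ 4 * κ ^ 2 ≤ (n : ℝ) ^ 4 * κ ^ 3 :=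
          mul_le_mul_of_nonneg_left (pow_le_pow_right₀ hκ (by norm_num)) (by positivity)
        nlinarith
  · intro d hd hdet
    rw [hQd] at hdet
    have hprod : ∏ i, q i ≤ d := by
      have h1 : H.det.re * ∏ i, q i ≤ H.det.re * d := by rw [mul_comm H.det.re d]; exact hdet
      exact le_of_mul_le_mul_left h1 hHd
    set D : ℝ := d * (1 + t) ^ n with hD
    have h1 : ((D : ℂ) • H - Q) =
        P * diagonal (fun i => (((-1) * q i - (-D) : ℝ) : ℂ)) * Pᴴ := by
      rw [← hab (-1) (-D)]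
      push_cast
      rw [neg_smul, neg_smul, one_smul]
      abel
    unfold MLe
    rw [h1]
    refine psd_diag P _ fun j => ?_
    have h2 : q j = (∏ i, q i) * ∏ i ∈ Finset.univ.erase j, (q i)⁻¹ := by
      rw [← Finset.mul_prod_erase Finset.univ q (Finset.mem_univ j), mul_assoc,
        ← Finset.prod_mul_distrib, Finset.prod_eq_one, mul_one]
      intro i _
      exact mul_inv_cancel₀ (hq i).ne'
    have h3 : ∏ i ∈ Finset.univ.erase j, (q i)⁻¹ ≤ ∏ i ∈ Finset.univ.erase j, (1 + t) :=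
      Finset.prod_le_prod (fun i _ => (inv_pos.2 (hq i)).le) fun i _ => by
        have := hqi i
        linarith
    have h4 : ∏ i ∈ Finset.univ.erase j, (1 + t) ≤ (1 + t) ^ n := by
      rw [Finset.prod_const]
      refine pow_le_pow_right₀ (by linarith) ?_
      calc (Finset.univ.erase j).card ≤ (Finset.univ : Finset (Fin n)).card :=
            Finset.card_le_card (Finset.erase_subset _ _)
        _ = n := by simp
    have h5 : q j ≤ D := by
      rw [h2, hD]
      exact mul_le_mul hprod (h3.trans h4) (Finset.prod_nonneg fun i _ => (inv_pos.2 (hq i)).le) hd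
    linarith
  · intro X r hX
    unfold MLe at hX
    have h1 := tr_mul_nonneg hX hQ.inv.posSemidef
    rw [Matrix.sub_mul, Matrix.trace_sub, Complex.sub_re, Matrix.smul_mul, Matrix.trace_smul,
      smul_eq_mul, Complex.re_ofReal_mul, ht] at h1
    linarith

end Pool.Agent.Helper13.HS
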